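import Mathlib
import Pool.Agent.N330.PathCore

/-!
# Group-invariant consistent path systems are `3 √|G|`-metric

For every finite group `G`, every symmetric generating set `S` and every `G`-invariant consistent
path system `P` in the Cayley graph `Γ(G,S)` we have `Δ(P) ≤ 3 √|G|`. So the question Q1 of
MP_8f0578_co has a negative answer: there is no sequence with `Δ(P_n) = ω(√|G_n|)`.

Idea. Every element `x` of `G` gets one word `w(x)` (the letters of `P_{1,x}`), and the words are
closed under factors and inverses. For two paths `(h_i)`, `(k_j)` from `1` the map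
`(i,j) ↦ h_i k_j⁻¹` can only collide along equal (or inverse) factors. Counting the values shows:
if some path has more than `3 √|G|` edges, then almost all of its letters come from one class
`{s, s⁻¹}` or from two involutions `{s, t}`, and every other path has at most `√|G| / 2` letters
outside this set `H`. Give weight `1` to the letters in `H` and weight `K` to all other elements,
where `K` is the length of the longest `H`-word in the system; the word metric for these weights
shows the claim. If all paths have at most `3 √|G|` edges, the discrete metric works.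
-/

open Filter

universe u

namespace Pool.Agent.Results.MP_8f0578_co.SqrtBound

/-- The Cayley graph `Γ(G,S)`: vertex set `G`, edges `{x, x * s}` for `x ∈ G`, `s ∈ S`
(without loops). -/
def cayley (G : Type u) [Group G] (S : Set G) : SimpleGraph G :=
  SimpleGraph.fromRel (fun x y => ∃ s ∈ S, y = x * s)

/-- A consistent path system in a graph `Γ`: for all vertices `a, b` a simple path `path a b` of
`Γ` from `a` to `b` (given by its list of vertices) with `path b a` the reverse of `path a b`, such
that for every path of the system, its portion between any two of its vertices `a, b`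
is `path a b`. -/
structure PathSystem {V : Type u} (Γ : SimpleGraph V) where
  path : V → V → List V
  head : ∀ a b, (path a b).head? = some a
  last : ∀ a b, (path a b).getLast? = some b
  nodup : ∀ a b, (path a b).Nodup
  adj : ∀ a b, (path a b).IsChain Γ.Adj
  reverse : ∀ a b, path b a = (path a b).reverse
  portion : ∀ (a b c d : V) (l₁ m l₂ : List V), path c d = l₁ ++ m ++ l₂ →
    m.head? = some a → m.getLast? = some b → m = path a b

/-- A metric on `V`. -/
structure IsMetric {V : Type u} (ρ : V → V → ℝ) : Prop where
  eq_zero_iff : ∀ x y, ρ x y = 0 ↔ x = y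
  symm : ∀ x y, ρ x y = ρ y x
  triangle : ∀ x y z, ρ x z ≤ ρ x y + ρ y z

/-- The length `ρ(P)` of a path, given by its list of vertices: the sum of `ρ` over
consecutive vertices. -/
def pathLength {V : Type u} (ρ : V → V → ℝ) (l : List V) : ℝ :=
  (List.zipWith ρ l l.tail).sum

/-- `P` is `α`-metric. -/
def PathSystem.AlphaMetric {V : Type u} {Γ : SimpleGraph V} (P : PathSystem Γ) (α : ℝ) : Prop :=
  ∃ ρ : V → V → ℝ, IsMetric ρ ∧ ∀ a b, pathLength ρ (P.path a b) ≤ α * ρ a b

/-- `Δ(P) = inf {α ≥ 1 : P is α-metric}`. -/
noncomputable def PathSystem.Delta {V : Type u} {Γ : SimpleGraph V} (P : PathSystem Γ) : ℝ :=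
  sInf {α : ℝ | 1 ≤ α ∧ P.AlphaMetric α}

/-- `G`-invariance of a path system in a Cayley graph. -/
def PathSystem.Invariant {G : Type u} [Group G] {S : Set G} (P : PathSystem (cayley G S)) : Prop :=
  ∀ g x y : G, P.path (g * x) (g * y) = (P.path x y).map (fun z => g * z)

section Letters

variable {G : Type u} [Group G]

/-- the letters of a list of vertices -/
def letters (l : List G) : List G := List.zipWith (fun a b => a⁻¹ * b) l l.tail

theorem letters_cons (a b : G) (l : List G) : letters (a :: b :: l) = (a⁻¹ * b) :: letters (b :: l) := rfl

theorem letters_single (a : G) : letters [a] = [] := rfl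

theorem letters_nil : letters ([] : List G) = [] := rfl

theorem letters_prod : ∀ (l : List G) (a b : G), l.head? = some a → l.getLast? = some b →
    (letters l).prod = a⁻¹ * b
  | [], a, b, h, _ => by simp at h
  | [x], a, b, h, h' => by
    simp only [List.head?_cons, Option.some.injEq, List.getLast?_singleton] at h h'
    subst h; subst h'; simp [letters_single]
  | x :: y :: l, a, b, h, h' => by
    simp only [List.head?_cons, Option.some.injEq] at h
    subst h
    rw [List.getLast?_cons_cons] at h'
    rw [letters_cons, List.prod_cons, letters_prod (y :: l) y b rfl h']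
    group

theorem letters_map (g : G) : ∀ l : List G, letters (l.map (fun z => g * z)) = letters l
  | [] => rfl
  | [x] => rfl
  | x :: y :: l => by
    have h := letters_map g (y :: l)
    rw [List.map_cons] at h
    rw [List.map_cons, List.map_cons, letters_cons, letters_cons, h]
    congr 1
    group

theorem letters_append (b : G) : ∀ (l r : List G),
    letters (l ++ b :: r) = letters (l ++ [b]) ++ letters (b :: r)
  | [], r => by simp [letters_single]
  | [x], r => by
    rw [List.singleton_append, List.singleton_append, letters_cons, letters_cons, letters_single]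
    rfl
  | x :: y :: l, r => by
    have h := letters_append b (y :: l) r
    rw [List.cons_append, List.cons_append] at h
    rw [List.cons_append, List.cons_append, List.cons_append, List.cons_append, letters_cons, h,
      letters_cons, List.cons_append]

theorem letters_reverse : ∀ l : List G, letters l.reverse = ((letters l).map (fun a => a⁻¹)).reverse
  | [] => rfl
  | [x] => rfl
  | x :: y :: l => by
    have h := letters_reverse (y :: l)
    rw [List.reverse_cons] at h
    rw [List.reverse_cons, List.reverse_cons, List.append_assoc, List.singleton_append,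
      letters_append, h, letters_cons y x, letters_single, letters_cons, List.map_cons,
      List.reverse_cons]
    congr 2
    group

theorem letters_split : ∀ (l : List G) (a m r : List G), l ≠ [] → letters l = a ++ m ++ r →
    ∃ L M R : List G, l = L ++ M ++ R ∧ M ≠ [] ∧ letters M = m
  | [], a, m, r, h, _ => absurd rfl h
  | [x], a, m, r, _, h => by
    rw [letters_single] at h
    have h1 : m = [] := by
      have := congrArg List.length h
      simp at this
      exact List.length_eq_zero_iff.mp (by omega)
    exact ⟨[], [x], [], rfl, by simp, by rw [h1, letters_single]⟩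
  | x :: y :: l, c :: a, m, r, _, h => by
    rw [letters_cons, List.cons_append, List.cons_append, List.cons.injEq] at h
    obtain ⟨L, M, R, h1, h2, h3⟩ := letters_split (y :: l) a m r (by simp) h.2
    exact ⟨x :: L, M, R, by rw [h1]; rfl, h2, h3⟩
  | x :: y :: l, [], [], r, _, _ => ⟨[], [x], y :: l, rfl, by simp, letters_single x⟩
  | x :: y :: l, [], c :: m, r, _, h => by
    rw [letters_cons, List.nil_append, List.cons_append, List.cons.injEq] at h
    -- here we need a start at the first vertex
    have key : ∀ (l : List G) (y : G) (m r : List G), letters (y :: l) = m ++ r →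
        ∃ M R : List G, y :: l = y :: M ++ R ∧ letters (y :: M) = m := by
      intro l
      induction l with
      | nil =>
        intro y m r h
        rw [letters_single] at h
        have h1 : m = [] := by
          have := congrArg List.length h
          simp at this
          exact List.length_eq_zero_iff.mp (by omega)
        exact ⟨[], [], rfl, by rw [h1, letters_single]⟩
      | cons z l ih =>
        intro y m r h
        cases m with
        | nil => exact ⟨[], z :: l, rfl, letters_single y⟩
        | cons c m =>
          rw [letters_cons, List.cons_append, List.cons.injEq] at h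
          obtain ⟨M, R, h1, h2⟩ := ih z m r h.2
          refine ⟨z :: M, R, by rw [h1]; rfl, by rw [letters_cons, h2, h.1]⟩
    obtain ⟨M, R, h1, h2⟩ := key l y m r h.2
    exact ⟨[], x :: y :: M, R, by rw [h1]; rfl, by simp, by rw [letters_cons, h2, h.1]⟩

theorem pathLength_eq (ν : G → ℝ) : ∀ l : List G,
    pathLength (fun x y => ν (x⁻¹ * y)) l = ((letters l).map ν).sum
  | [] => rfl
  | [x] => rfl
  | x :: y :: l => by
    have h := pathLength_eq ν (y :: l)
    unfold pathLength at h ⊢
    rw [letters_cons, List.map_cons, List.sum_cons, ← h]
    rfl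

theorem wordSystem {S : Set G} (P : PathSystem (cayley G S)) (hP : P.Invariant) :
    N330.PathCore.WordSystem (fun x => letters (P.path 1 x)) where
  prod x := by
    rw [letters_prod _ 1 x (P.head 1 x) (P.last 1 x)]
    simp
  factor x l m r h := by
    have hne : P.path 1 x ≠ [] := by
      intro h0
      have := P.head 1 x
      rw [h0] at this
      simp at this
    obtain ⟨L, M, R, h1, h2, h3⟩ := letters_split _ l m r hne h
    obtain ⟨a, ha⟩ : ∃ a, M.head? = some a := by
      cases M with
      | nil => exact absurd rfl h2
      | cons a M => exact ⟨a, rfl⟩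
    obtain ⟨b, hb⟩ : ∃ b, M.getLast? = some b :=
      ⟨M.getLast h2, List.getLast?_eq_some_getLast h2⟩
    have h4 := P.portion a b 1 x L M R h1 ha hb
    have h5 : m.prod = a⁻¹ * b := by
      rw [← h3]; exact letters_prod M a b ha hb
    have h6 := hP a⁻¹ a b
    rw [inv_mul_cancel, ← h4] at h6
    show letters (P.path 1 m.prod) = m
    rw [h5, h6, letters_map, h3]
  inv x := by
    have h1 := hP x⁻¹ x 1
    rw [inv_mul_cancel, mul_one] at h1
    show letters (P.path 1 x⁻¹) = ((letters (P.path 1 x)).map (fun a => a⁻¹)).reverse
    rw [h1, letters_map, P.reverse 1 x, letters_reverse]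

end Letters

/-- The bound for one group. -/
theorem delta_le (G : Type u) [Group G] [Fintype G] (S : Set G)
    (P : PathSystem (cayley G S)) (hP : P.Invariant) :
    P.Delta ≤ 3 * Real.sqrt (Fintype.card G) := by
  obtain ⟨ν, h1, h2, h3, h4, h5⟩ := (wordSystem P hP).core
  have hN : 0 < Fintype.card G := Fintype.card_pos
  have hq0 : 1 ≤ Real.sqrt (Fintype.card G) := by
    rw [Real.one_le_sqrt]; exact_mod_cast hN
  apply csInf_le ⟨1, fun α hα => hα.1⟩
  refine ⟨by linarith, fun x y => ν (x⁻¹ * y), ⟨?_, ?_, ?_⟩, ?_⟩
  · intro x y
    constructor
    · intro h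
      by_contra hne
      have : x⁻¹ * y ≠ 1 := fun h' => hne (inv_mul_eq_one.mp h')
      have := h2 _ this
      linarith
    · rintro rfl
      simp [h1]
  · intro x y
    show ν (x⁻¹ * y) = ν (y⁻¹ * x)
    rw [← h3]
    congr 1
    group
  · intro x y z
    have := h4 (x⁻¹ * y) (y⁻¹ * z)
    have h6 : x⁻¹ * y * (y⁻¹ * z) = x⁻¹ * z := by group
    rw [h6] at this
    exact this
  · intro a b
    rw [pathLength_eq]
    have h6 := hP a 1 (a⁻¹ * b)
    have h7 : a * (a⁻¹ * b) = b := by group
    rw [mul_one, h7] at h6
    rw [h6, letters_map]
    exact h5 (a⁻¹ * b)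

/-- **Negative answer to Q1 of MP_8f0578_co.** Every `G`-invariant consistent path system in a
Cayley graph of a finite group `G` has `Δ(P) ≤ 3 √|G|`; hence there are no finite groups `G_n`
with `|G_n| → ∞`, symmetric generating sets and `G_n`-invariant consistent path systems with
`Δ(P_n) / √|G_n| → ∞`. -/
theorem result :
    (∀ (G : Type u) [Group G] [Fintype G] (S : Set G), (∀ s ∈ S, s⁻¹ ∈ S) →
      Subgroup.closure S = ⊤ → ∀ P : PathSystem (cayley G S), P.Invariant →
        P.Delta ≤ 3 * Real.sqrt (Fintype.card G)) ∧
    ¬ ∃ (G : ℕ → Type u) (_ : ∀ n, Group (G n)) (_ : ∀ n, Fintype (G n))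
      (S : ∀ n, Set (G n)) (P : ∀ n, PathSystem (cayley (G n) (S n))),
      (∀ n, ∀ s ∈ S n, s⁻¹ ∈ S n) ∧ (∀ n, Subgroup.closure (S n) = ⊤) ∧
      (∀ n, (P n).Invariant) ∧
      Tendsto (fun n => Fintype.card (G n)) atTop atTop ∧
      Tendsto (fun n => (P n).Delta / Real.sqrt (Fintype.card (G n))) atTop atTop := by
  constructor
  · intro G _ _ S _ _ P hP
    exact delta_le G S P hP
  · rintro ⟨G, _, _, S, P, -, -, hP, -, hlim⟩
    obtain ⟨n, hn⟩ := (hlim.eventually (eventually_gt_atTop (3:ℝ))).exists
    have h1 := delta_le (G n) (S n) (P n) (hP n)
    have hN : 0 < Fintype.card (G n) := Fintype.card_pos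
    have hq : 0 < Real.sqrt (Fintype.card (G n)) := Real.sqrt_pos.mpr (by exact_mod_cast hN)
    rw [lt_div_iff₀ hq] at hn
    linarith

end Pool.Agent.Results.MP_8f0578_co.SqrtBound
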